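import Pool.Agent.Helper48.TF.Defs5
import Pool.Agent.Helper41.TF.LIN

/-!
# TF, part POL (MP_097e5c_al): polarization
-/

set_option autoImplicit false

namespace Pool.TF48.H57

open Pool.TF48

/-- the signs -/
def e2 (s : Fin 2) : ℤ := if s = 0 then -1 else 1

theorem e2_sum (k : ℕ) : ∑ s : Fin 2, e2 s * ((s : ℕ) : ℤ) ^ k = if k = 0 then 0 else 1 := by
  rw [Fin.sum_univ_two]
  rcases k with _ | k
  · simp [e2]
  · simp [e2]

theorem coefsum2 {n m : ℕ} (g : Fin m → Fin n) :
    ∑ t : Fin n → Fin 2, (∏ i, e2 (t i)) * ∏ j, ((t (g j) : ℕ) : ℤ) =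
      if Function.Surjective g then 1 else 0 := by
  classical
  have h1 : ∀ t : Fin n → Fin 2, (∏ i, e2 (t i)) * ∏ j, ((t (g j) : ℕ) : ℤ) =
      ∏ i, (e2 (t i) * ((t i : ℕ) : ℤ) ^ (Finset.univ.filter (fun j => g j = i)).card) := by
    intro t
    rw [Finset.prod_mul_distrib]
    congr 1
    rw [← Finset.prod_fiberwise' Finset.univ g (fun i => ((t i : ℕ) : ℤ))]
    refine Finset.prod_congr rfl fun i _ => ?_
    rw [Finset.prod_const]
  rw [Finset.sum_congr rfl fun t _ => h1 t]
  have h2 := Finset.prod_univ_sum (fun _ : Fin n => (Finset.univ : Finset (Fin 2)))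
    (fun i s => e2 s * ((s : ℕ) : ℤ) ^ (Finset.univ.filter (fun j => g j = i)).card)
  rw [Fintype.piFinset_univ] at h2
  rw [← h2, Finset.prod_congr rfl fun i _ => e2_sum _]
  by_cases hb : Function.Surjective g
  · rw [if_pos hb]
    refine Finset.prod_eq_one fun i _ => ?_
    obtain ⟨j, hj⟩ := hb i
    rw [if_neg]
    intro h0
    have := Finset.card_eq_zero.1 h0
    have h3 : j ∈ Finset.univ.filter (fun j => g j = i) := by simp [hj]
    rw [this] at h3
    simp at h3
  · rw [if_neg hb]
    have h4 : ∃ i : Fin n, ∀ j, g j ≠ i := by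
      by_contra hcon
      push Not at hcon
      exact hb hcon
    obtain ⟨i, hi⟩ := h4
    refine Finset.prod_eq_zero (Finset.mem_univ i) (if_pos ?_)
    rw [Finset.card_eq_zero, Finset.filter_eq_empty_iff]
    intro j _
    exact hi j

open Classical in
theorem wordsum2 {U : Type} [Ring U] {n m : ℕ} (hm : m ≤ n)
    (l : Fin n → ℕ) (w : Fin m → ℕ) (x : Fin n → U) :
    ∑ t : Fin n → Fin 2, (∏ i, e2 (t i)) •
      (List.ofFn (fun j => ∑ i, (if l i = w j then ((t i : ℕ) : ℤ) else 0) • x i)).prod =
    ∑ σ : Equiv.Perm (Fin n), if List.ofFn (fun i => l (σ i)) = List.ofFn w then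
      (List.ofFn (fun i => x (σ i))).prod else 0 := by
  have h1 : ∀ t : Fin n → Fin 2, (∏ i, e2 (t i)) •
      (List.ofFn (fun j => ∑ i, (if l i = w j then ((t i : ℕ) : ℤ) else 0) • x i)).prod =
      ∑ g : Fin m → Fin n, ((∏ i, e2 (t i)) * ∏ j, (if l (g j) = w j then ((t (g j) : ℕ) : ℤ)
        else 0)) • (List.ofFn (fun j => x (g j))).prod := by
    intro t
    rw [H41.expand (fun i j => if l i = w j then ((t i : ℕ) : ℤ) else 0) x, Finset.smul_sum]
    refine Finset.sum_congr rfl fun g _ => ?_
    rw [smul_smul]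
  rw [Finset.sum_congr rfl fun t _ => h1 t, Finset.sum_comm]
  have h2 : ∀ g : Fin m → Fin n, ∑ t : Fin n → Fin 2,
      ((∏ i, e2 (t i)) * ∏ j, (if l (g j) = w j then ((t (g j) : ℕ) : ℤ)
        else 0)) • (List.ofFn (fun j => x (g j))).prod =
      (if (∀ j, l (g j) = w j) ∧ Function.Surjective g then (1 : ℤ) else 0) •
        (List.ofFn (fun j => x (g j))).prod := by
    intro g
    rw [← Finset.sum_smul]
    congr 1
    by_cases hw : ∀ j, l (g j) = w j
    · have h3 : ∀ t : Fin n → Fin 2, ∏ j, (if l (g j) = w j then ((t (g j) : ℕ) : ℤ)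
        else 0) = ∏ j, ((t (g j) : ℕ) : ℤ) := fun t =>
          Finset.prod_congr rfl fun j _ => if_pos (hw j)
      rw [Finset.sum_congr rfl fun t _ => by rw [h3 t], coefsum2 g]
      by_cases hb : Function.Surjective g
      · rw [if_pos hb, if_pos ⟨hw, hb⟩]
      · rw [if_neg hb, if_neg (fun h => hb h.2)]
    · rw [if_neg (fun h => hw h.1)]
      push Not at hw
      obtain ⟨j, hj⟩ := hw
      refine Finset.sum_eq_zero fun t _ => ?_
      rw [Finset.prod_eq_zero (Finset.mem_univ j) (if_neg hj), mul_zero]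
  rw [Finset.sum_congr rfl fun g _ => h2 g]
  by_cases hmn : m = n
  · subst hmn
    symm
    refine Finset.sum_of_injOn (fun σ : Equiv.Perm (Fin m) => (σ : Fin m → Fin m))
      (fun a _ b _ h => DFunLike.coe_injective h)
      (fun _ _ => Finset.mem_coe.2 (Finset.mem_univ _)) ?_ ?_
    · intro g _ hg
      rw [if_neg, zero_smul]
      rintro ⟨_, hb⟩
      exact hg ⟨Equiv.ofBijective g ⟨Finite.injective_iff_surjective.2 hb, hb⟩, by simp, rfl⟩
    · intro σ _
      by_cases h : List.ofFn (fun i => l (σ i)) = List.ofFn w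
      · rw [if_pos h, if_pos ⟨fun j => congrFun (List.ofFn_injective h) j, σ.surjective⟩, one_smul]
      · rw [if_neg h, if_neg, zero_smul]
        rintro ⟨h3, _⟩
        exact h (congrArg List.ofFn (funext h3))
  · have h3 : ∀ g : Fin m → Fin n, ¬ Function.Surjective g := by
      intro g hg
      apply hmn
      have := Fintype.card_le_of_surjective g hg
      rw [Fintype.card_fin, Fintype.card_fin] at this
      omega
    have h4 : ∀ σ : Equiv.Perm (Fin n), List.ofFn (fun i => l (σ i)) ≠ List.ofFn w := by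
      intro σ h
      apply hmn
      have := congrArg List.length h
      simpa using this.symm
    rw [Finset.sum_eq_zero, Finset.sum_eq_zero]
    · intro σ _
      rw [if_neg (h4 σ)]
    · intro g _
      rw [if_neg (fun h => h3 g h.2), zero_smul]

theorem prod_inr {R : Type} [NonUnitalRing R] : ∀ L : List R, L ≠ [] →
    ∃ r : R, (L.map (fun a : R => (a : Unitization ℤ R))).prod = (r : Unitization ℤ R)
  | [], h => absurd rfl h
  | [a], _ => ⟨a, by simp⟩
  | a :: b :: L, _ => by
    obtain ⟨r, hr⟩ := prod_inr (b :: L) (by simp)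
    refine ⟨a * r, ?_⟩
    rw [List.map_cons, List.prod_cons, hr, Unitization.inr_mul]

theorem pol : S_POL := by
  classical
  intro R _ f hf n l hlong x
  -- the values
  let r : (Fin (n + 1) → Fin 2) → ℕ → R := fun t k =>
    ∑ i, (if l i = k then ((t i : ℕ) : ℤ) else 0) • x i
  have hr : ∀ t k, ((r t k : R) : Unitization ℤ R) =
      ∑ i, (if l i = k then ((t i : ℕ) : ℤ) else 0) • (x i : Unitization ℤ R) := by
    intro t k
    have h := map_sum (Unitization.inrHom ℤ ℤ R) (fun i : Fin (n + 1) =>
      (if l i = k then ((t i : ℕ) : ℤ) else 0) • x i) Finset.univ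
    simp only [map_zsmul] at h
    exact h
  have hsum : ∀ g : ℕ → R, ev g f = ∑ w ∈ f.coeff.support,
      f.coeff w • (w.toList.map (fun k => (g k : Unitization ℤ R))).prod := by
    intro g
    unfold ev
    have h1 : f = ∑ w ∈ f.coeff.support, MonoidAlgebra.single w (f.coeff w) :=
      (MonoidAlgebra.sum_coeff_single f).symm
    conv_lhs => rw [h1]
    rw [map_sum]
    refine Finset.sum_congr rfl fun w _ => ?_
    exact H41.lft_single _ w.toList _
  have h0 : ∑ t : Fin (n + 1) → Fin 2, (∏ i, e2 (t i)) • ev (r t) f = 0 :=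
    Finset.sum_eq_zero fun t _ => by rw [hf, smul_zero]
  rw [← h0]
  simp only [hsum, Finset.smul_sum]
  rw [Finset.sum_comm]
  have h2 : ∀ w ∈ f.coeff.support, ∑ t : Fin (n + 1) → Fin 2, (∏ i, e2 (t i)) •
      f.coeff w • (w.toList.map (fun k => ((r t k : R) : Unitization ℤ R))).prod =
      ∑ σ : Equiv.Perm (Fin (n + 1)), if FreeMonoid.ofList (List.ofFn (fun i => l (σ i))) = w then
        f.coeff w • (List.ofFn (fun i => (x (σ i) : Unitization ℤ R))).prod
        else 0 := by
    intro w hw
    by_cases hlen : n + 1 < w.toList.length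
    · have hz : ∀ L : List R, L ≠ [] →
          f.coeff w • (L.map (fun a : R => (a : Unitization ℤ R))).prod = 0 := by
        intro L hL
        obtain ⟨s, hs⟩ := prod_inr L hL
        rw [hs, ← Unitization.inr_smul, hlong w hlen s, Unitization.inr_zero]
      rw [Finset.sum_eq_zero, Finset.sum_eq_zero]
      · intro σ _
        rw [if_neg]
        rintro rfl
        rw [FreeMonoid.toList_ofList, List.length_ofFn] at hlen
        exact lt_irrefl _ hlen
      · intro t _
        have h5 : w.toList.map (fun k => ((r t k : R) : Unitization ℤ R)) =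
            (w.toList.map (r t)).map (fun a : R => (a : Unitization ℤ R)) := by
          rw [List.map_map]
          rfl
        rw [h5, hz, smul_zero]
        intro h6
        have := congrArg List.length h6
        rw [List.length_map, List.length_nil] at this
        omega
    have hlen' : w.toList.length ≤ n + 1 := not_lt.1 hlen
    have h3 := wordsum2 hlen' l w.toList.get (fun i => (x i : Unitization ℤ R))
    have h4 : ∀ t : Fin (n + 1) → Fin 2,
        w.toList.map (fun k => ((r t k : R) : Unitization ℤ R)) =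
        List.ofFn (fun j => ∑ i, (if l i = w.toList.get j then ((t i : ℕ) : ℤ) else 0) •
          (x i : Unitization ℤ R)) := by
      intro t
      conv_lhs => rw [← List.ofFn_get w.toList]
      rw [List.map_ofFn]
      congr 1
      funext j
      exact hr t _
    have h5 : ∀ t : Fin (n + 1) → Fin 2, (∏ i, e2 (t i)) •
      f.coeff w • (w.toList.map (fun k => ((r t k : R) : Unitization ℤ R))).prod =
      f.coeff w • ((∏ i, e2 (t i)) • (List.ofFn (fun j => ∑ i, (if l i = w.toList.get j then
        ((t i : ℕ) : ℤ) else 0) • (x i : Unitization ℤ R))).prod) := by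
      intro t
      rw [h4 t, smul_comm]
    rw [Finset.sum_congr rfl fun t _ => h5 t, ← Finset.smul_sum, h3, Finset.smul_sum]
    refine Finset.sum_congr rfl fun σ _ => ?_
    rw [List.ofFn_get]
    by_cases h : List.ofFn (fun i => l (σ i)) = w.toList
    · rw [if_pos h, if_pos (by rw [h, FreeMonoid.ofList_toList])]
    · rw [if_neg h, if_neg, smul_zero]
      intro h6
      apply h
      rw [← h6, FreeMonoid.toList_ofList]
  rw [Finset.sum_congr rfl h2, Finset.sum_comm]
  refine Finset.sum_congr rfl fun σ _ => ?_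
  rw [Finset.sum_ite_eq]
  by_cases h : FreeMonoid.ofList (List.ofFn (fun i => l (σ i))) ∈ f.coeff.support
  · rw [if_pos h]
  · rw [if_neg h, Finsupp.notMem_support_iff.1 h, zero_smul]

end Pool.TF48.H57
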