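import Pool.Agent.Helper48.TF.Defs5
import Pool.Agent.Helper48.TF.FIN

/-!
# Part PSD: a semiprime ring is a subdirect product of prime rings
-/

set_option autoImplicit false

namespace Pool.TF48.H57

open Pool.TF48

/-- ideals -/
abbrev IsId {R : Type} [NonUnitalRing R] (N : AddSubgroup R) : Prop :=
  ∀ a ∈ N, ∀ b : R, a * b ∈ N ∧ b * a ∈ N

theorem psd : S_PSD := by
  classical
  intro R _ hsp a ha
  have hex : ∀ x : {x : R // x ≠ 0}, ∃ b : R, x.1 * b * x.1 ≠ 0 := by
    intro x
    by_contra hcon
    push Not at hcon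
    exact x.2 (hsp x.1 hcon)
  choose nb hnb using hex
  let s : ℕ → {x : R // x ≠ 0} := fun n =>
    Nat.rec (motive := fun _ => {x : R // x ≠ 0}) ⟨a, ha⟩ (fun _ x => ⟨x.1 * nb x * x.1, hnb x⟩) n
  have hs0 : (s 0).1 = a := rfl
  have hs1 : ∀ n, (s (n + 1)).1 = (s n).1 * nb (s n) * (s n).1 := fun n => rfl
  -- the sequence stays in every ideal which it enters
  have hstay : ∀ N : AddSubgroup R, IsId N → ∀ n k, (s n).1 ∈ N → (s (n + k)).1 ∈ N := by
    intro N hN n k h
    induction k with
    | zero => exact h
    | succ k ih =>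
      rw [← add_assoc, hs1]
      exact (hN _ ih _).2
  -- Zorn
  obtain ⟨P, hP⟩ := zorn_le₀ {N : AddSubgroup R | IsId N ∧ ∀ n, (s n).1 ∉ N} (by
    intro c hc hchain
    rcases c.eq_empty_or_nonempty with rfl | hne
    · refine ⟨⊥, ⟨?_, ?_⟩, by simp⟩
      · intro x hx b
        rw [AddSubgroup.mem_bot] at hx
        subst hx
        simp
      · intro n h
        exact (s n).2 (AddSubgroup.mem_bot.1 h)
    · have hdir : DirectedOn (· ≤ ·) c := hchain.directedOn
      refine ⟨sSup c, ⟨?_, ?_⟩, fun z hz => le_sSup hz⟩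
      · intro x hx b
        obtain ⟨N, hN, hxN⟩ := (AddSubgroup.mem_sSup_of_directedOn hne hdir).1 hx
        exact ⟨(le_sSup hN) ((hc hN).1 x hxN b).1, (le_sSup hN) ((hc hN).1 x hxN b).2⟩
      · intro n h
        obtain ⟨N, hN, hxN⟩ := (AddSubgroup.mem_sSup_of_directedOn hne hdir).1 h
        exact (hc hN).2 n hxN)
  obtain ⟨⟨hid, hno⟩, hmax⟩ := hP
  have hbig : ∀ N : AddSubgroup R, IsId N → P ≤ N → ∀ x ∈ N, x ∉ P → ∃ n, (s n).1 ∈ N := by
    intro N hN hPN x hx hxP
    by_contra hcon
    push Not at hcon
    exact hxP (hmax ⟨hN, hcon⟩ hPN hx)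
  refine ⟨(idCon P hid).Quotient, inferInstance, mkCon (idCon P hid), mkCon_surj _, ?_, ?_⟩
  · intro x y hxy
    obtain ⟨x', rfl⟩ := mkCon_surj _ x
    obtain ⟨y', rfl⟩ := mkCon_surj _ y
    have hxy' : ∀ z : R, x' * z * y' ∈ P := by
      intro z
      have := hxy (mkCon (idCon P hid) z)
      rwa [← map_mul, ← map_mul, mk_idCon] at this
    by_contra hcon
    push Not at hcon
    obtain ⟨hx, hy⟩ := hcon
    rw [Ne, mk_idCon] at hx hy
    let I1 : AddSubgroup R :=
      { carrier := {r | ∀ z : R, r * z * y' ∈ P}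
        zero_mem' := by intro z; simp
        add_mem' := by
          intro r t hr ht z
          rw [add_mul, add_mul]
          exact P.add_mem (hr z) (ht z)
        neg_mem' := by
          intro r hr z
          rw [neg_mul, neg_mul]
          exact P.neg_mem (hr z) }
    have hI1 : IsId I1 := by
      intro r hr b
      constructor
      · intro z
        have := hr (b * z)
        rwa [← mul_assoc] at this
      · intro z
        have := (hid _ (hr z) b).2
        simpa only [mul_assoc] using this
    have hPI1 : P ≤ I1 := by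
      intro r hr z
      exact (hid _ ((hid r hr z).1) y').1
    let I2 : AddSubgroup R :=
      { carrier := {r | ∀ w ∈ I1, ∀ z : R, w * z * r ∈ P}
        zero_mem' := by intro w _ z; simp
        add_mem' := by
          intro r t hr ht w hw z
          rw [mul_add]
          exact P.add_mem (hr w hw z) (ht w hw z)
        neg_mem' := by
          intro r hr w hw z
          rw [mul_neg]
          exact P.neg_mem (hr w hw z) }
    have hI2 : IsId I2 := by
      intro r hr b
      constructor
      · intro w hw z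
        have := (hid _ (hr w hw z) b).1
        simpa only [mul_assoc] using this
      · intro w hw z
        have := hr w hw (z * b)
        simpa only [mul_assoc] using this
    have hPI2 : P ≤ I2 := by
      intro r hr w _ z
      exact (hid r hr (w * z)).2
    obtain ⟨n, hn⟩ := hbig I1 hI1 hPI1 x' (fun z => hxy' z) hx
    obtain ⟨m, hm⟩ := hbig I2 hI2 hPI2 y' (fun w hw z => hw z) hy
    have h1 := hstay I1 hI1 n m hn
    have h2 := hstay I2 hI2 m n hm
    rw [add_comm m n] at h2
    have h3 := h2 _ h1 (nb (s (n + m)))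
    rw [← hs1] at h3
    exact hno (n + m + 1) h3
  · rw [Ne, mk_idCon]
    have := hno 0
    rwa [hs0] at this

end Pool.TF48.H57
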